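import Pool.Agent.helper12.DD.Spec2
import Pool.Agent.helper49.Blocks2

set_option autoImplicit false

open Pool.Agent.helper49.Blk

namespace Pool.Agent.DD

lemma BVW_right {G Q : Type} [Group G] [Group Q] (g x : Wr G Q) (hg : g.right ≠ 1)
    (h : IsConj g x) : x.right ≠ 1 := by
  obtain ⟨c, rfl⟩ := isConj_iff.mp h
  intro h1
  apply hg
  rw [SemidirectProduct.mul_right, SemidirectProduct.mul_right, SemidirectProduct.inv_right] at h1
  have h2 : c.right * g.right = c.right := by
    have := mul_inv_eq_one.mp h1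
    exact this
  exact mul_eq_left.mp h2

lemma BVW_sum {ι : Type} (M : Ideal (integralClosure ℤ ℂ)) (s : Finset ι) (F : ι → ℂ)
    (h : ∀ i ∈ s, ∃ a ∈ M, F i = ((a : integralClosure ℤ ℂ) : ℂ)) :
    ∃ a ∈ M, ∑ i ∈ s, F i = ((a : integralClosure ℤ ℂ) : ℂ) := by
  classical
  induction s using Finset.induction_on with
  | empty => exact ⟨0, M.zero_mem, by simp⟩
  | insert i s hi ih =>
    obtain ⟨a, ha, ha'⟩ := h i (Finset.mem_insert_self i s)
    obtain ⟨b, hb, hb'⟩ := ih fun j hj => h j (Finset.mem_insert_of_mem hj)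
    refine ⟨a + b, M.add_mem ha hb, ?_⟩
    rw [Finset.sum_insert hi, ha', hb']
    rfl

theorem BVW (hV : BVV_stmt) : BVW_stmt := by
  classical
  intro p hp M hM hpM G Q _ _ _ _ hq hqp hv N φ hφ d hd hqd g hg
  have hW : Finite (Wr G Q) := Finite.of_equiv _ SemidirectProduct.equivProd.symm
  have hN : Finite N := inferInstance
  have hN2 : Fintype N := Fintype.ofFinite N
  have hN3 : Fintype (ConjClasses N) := Fintype.ofFinite _
  have hcl : ∀ x y : N, IsConj x y → φ x = φ y := by
    obtain ⟨V, _, _, _, ρ, -, rfl⟩ := hφ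
    intro x y hxy
    exact char_conj' ρ hxy
  have hS : ∀ x y : N, IsConj x y → (IsConj g (x : Wr G Q) ↔ IsConj g (y : Wr G Q)) := by
    intro x y hxy
    have h1 : IsConj (x : Wr G Q) (y : Wr G Q) := N.subtype.map_isConj hxy
    exact ⟨fun h => h.trans h1, fun h => h.trans h1.symm⟩
  have e1 : omInd N φ g = ∑ x : N, (if IsConj g (x : Wr G Q) then φ x / φ 1 else 0) := by
    unfold omInd
    rw [← Finset.sum_filter, finsum_mem_eq_sum_of_inter_support_eq
      (s := {x : N | IsConj g (x : Wr G Q)})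
      (t := Finset.univ.filter fun x : N => IsConj g (x : Wr G Q)) φ (by ext x; simp),
      Finset.sum_div]
  rw [e1, sum_class _ (by
    intro x y hxy
    simp only [hS x y hxy, hcl x y hxy])]
  apply BVW_sum
  intro K _
  by_cases hK : IsConj g ((Quotient.out K : N) : Wr G Q)
  · obtain ⟨a, ha, ha'⟩ := hV p hp M hM hpM G Q hq hqp hv N N.subtype
      (Subgroup.subtype_injective N) φ hφ d hd hqd (Quotient.out K) (BVW_right g _ hg hK)
    refine ⟨a, ha, ?_⟩
    rw [if_pos hK, ← ha', omega, mul_div_assoc]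
  · refine ⟨0, M.zero_mem, ?_⟩
    rw [if_neg hK, mul_zero]
    rfl

end Pool.Agent.DD
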